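import Pool.Agent.R694.RC.Tame

set_option autoImplicit false

/-!
# Splitting at gaps of degrees and freezing rigid sets

`T(G)` is the set of nonempty cliques of `G` ordered by inclusion.

A colouring `c` of a set `U` of vertices of `G` is *tame* (`Pool.Agent.R694.RC.Tame G U c`) if it is
obtained from the constant colouring of the set of all vertices by steps of two kinds.

* Split: if no vertex of colour `i` in `U` has exactly `e` neighbours in `U` with colours in the set
  `J`, then the vertices of colour `i` with more than `e` such neighbours get a new colour.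
* Freeze: if a union `A` of colour classes of `U` induces a graph without nontrivial automorphisms
  preserving the colours, and `U \ A` has at least three elements, then `U` is replaced by `U \ A`,
  partitioned according to the old colours and the neighbours in `A`.

**Theorem.** Let `G` have at least three vertices and a tame colouring `c` of `U`. Then `T(G)` and
`T` of the complement of `G` are reconstructible in each of the following two cases.

(1) There is a vertex `v` in `U` such that for every colour `i` there is a set `J` of colours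
    containing the colour of `v` with the following property: if `x`, `y` are vertices of colour `i`
    in `U`, `x` is adjacent to `v` and `y ≠ v` is not, then the number of neighbours of `x` with
    colours in `J` is not the one of `y` plus one.
(2) `U` is the union of two disjoint nonempty sets `W`, `W'` such that the adjacency of a vertex of
    `W` and a vertex of `W'` depends only on the unordered pair of their colours.

For `U` the set of all vertices and the constant colouring these are the known cases of graphs
with a vertex `v` without such pairs of neighbours and nonneighbours (for instance regular graphs),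
and of disconnected graphs and their complements.

**Special case.** Let no vertex of `G` have degree `e`, let the graph induced by the vertices of
degree more than `e` have no nontrivial automorphism (for instance there is only one such vertex),
and let `L` be the set of the vertices of degree less than `e`, with at least three elements. If the
graph induced by `L` or its complement is disconnected, or if it does not contain two vertices
whose degrees in it differ by one (for instance if it is regular), then `T(G)` and `T` of the
complement of `G` are reconstructible.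

The proof: the card isomorphisms of a hypomorphic graph preserve tame colourings, they agree on the
frozen vertices, and by Kelly's lemma the numbers of coloured neighbours are the same; case (2) uses
the count of coloured components of the starting library (`Pool.Agent.TH87.RVE`).
-/

namespace Pool.Agent.Results.MP_552896_co.GapsAndRigidSets

open Finset Pool.Agent.R694.RC

/-- The truncated clique lattices of `G` and `H` have the same deck of maximal filter deleted
subsets: some bijection `f` of the vertex sets is such that, for every vertex `v`, the nonempty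
cliques of `G` avoiding `v` and the nonempty cliques of `H` avoiding `f v`, both ordered by
inclusion, are isomorphic ordered sets. -/
def SameDeck {V W : Type} (G : SimpleGraph V) (H : SimpleGraph W) : Prop :=
  ∃ f : V ≃ W, ∀ v : V,
    Nonempty ({s : Finset V // s.Nonempty ∧ G.IsClique (s : Set V) ∧ v ∉ s} ≃o
      {t : Finset W // t.Nonempty ∧ H.IsClique (t : Set W) ∧ f v ∉ t})

/-- `T(G)` is reconstructible from its deck: every truncated clique lattice `T(H)` of a finite
graph `H` with the same deck is isomorphic to `T(G)`. -/
def Reconstructible {V : Type} (G : SimpleGraph V) : Prop :=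
  ∀ (W : Type) [Fintype W] (H : SimpleGraph W), SameDeck G H →
    Nonempty ({s : Finset V // s.Nonempty ∧ G.IsClique (s : Set V)} ≃o
      {t : Finset W // t.Nonempty ∧ H.IsClique (t : Set W)})

open Classical in
/-- The degree of `x` in `G`. -/
noncomputable def deg {V : Type} [Fintype V] (G : SimpleGraph V) (x : V) : ℕ :=
  (univ.filter (fun y => G.Adj x y)).card

open Classical in
/-- The set of the vertices of degree less than `e`. -/
noncomputable def low {V : Type} [Fintype V] (G : SimpleGraph V) (e : ℕ) : Finset V :=
  univ.filter (fun x => deg G x < e)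

open Classical in
/-- The number of the neighbours of `x` in the set `L`. -/
noncomputable def degIn {V : Type} [Fintype V] (G : SimpleGraph V) (L : Finset V) (x : V) : ℕ :=
  (L.filter (fun y => G.Adj x y)).card

open Classical in
theorem tame_low {V : Type} [Fintype V] (G : SimpleGraph V) (e : ℕ) (he : ∀ x, deg G x ≠ e)
    (hrig : ∀ σ : Equiv.Perm V, (∀ x, e < deg G x → e < deg G (σ x)) →
      (∀ x y, e < deg G x → e < deg G y → (G.Adj (σ x) (σ y) ↔ G.Adj x y)) →
      ∀ x, e < deg G x → σ x = x) (h3 : 3 ≤ (low G e).card) :
    ∃ c : V → ℕ, Tame G (low G e) c := by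
  have hnb : ∀ x, nbrs G univ (fun _ => 0) Set.univ x = deg G x := by
    intro x
    unfold nbrs deg
    congr 1
    ext y
    simp
  let c1 : V → ℕ := fun x => if (fun _ : V => 0) x = 0 ∧
    e < nbrs G univ (fun _ => 0) Set.univ x then 1 else (fun _ : V => 0) x
  have hc1 : ∀ x, c1 x = if e < deg G x then 1 else 0 := by
    intro x
    show (if (0 : ℕ) = 0 ∧ e < nbrs G univ (fun _ => 0) Set.univ x then 1 else 0) = _
    rw [hnb]
    simp
  have ht1 : Tame G univ c1 :=
    Tame.split univ (fun _ => 0) 0 e 1 Set.univ Tame.start (fun x _ _ => by rw [hnb]; exact he x)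
      (fun x _ => by simp)
  let A : Finset V := univ.filter (fun x => e < deg G x)
  have hA : ∀ x, x ∈ A ↔ e < deg G x := fun x => by simp [A]
  have hlow : univ \ A = low G e := by
    ext x
    rw [mem_sdiff, hA]
    unfold low
    rw [mem_filter]
    have := he x
    constructor
    · rintro ⟨_, h⟩
      exact ⟨mem_univ _, by omega⟩
    · rintro ⟨_, h⟩
      exact ⟨mem_univ _, by omega⟩
  -- a colouring of the partition
  let key : V → ℕ × Finset V := fun x => (c1 x, A.filter (fun a => G.Adj x a))
  obtain ⟨f, hf⟩ : ∃ f : ℕ × Finset V → ℕ, ∀ x y, f (key x) = f (key y) ↔ key x = key y := by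
    let R : Finset (ℕ × Finset V) := univ.image key
    let g := R.equivFin
    refine ⟨fun p => if h : p ∈ R then (g ⟨p, h⟩ : ℕ) else 0, fun x y => ?_⟩
    have hx : key x ∈ R := mem_image_of_mem _ (mem_univ x)
    have hy : key y ∈ R := mem_image_of_mem _ (mem_univ y)
    simp only [hx, hy, dif_pos]
    rw [Fin.val_inj, g.apply_eq_iff_eq, Subtype.mk.injEq]
  refine ⟨fun x => f (key x), ?_⟩
  rw [← hlow]
  refine Tame.freeze univ A c1 _ ht1 (subset_univ _) (by rw [hlow]; exact h3) ?_ ?_ ?_
  · intro x hx y hy
    have hx' := (hA x).mp hx
    have hy' : ¬ e < deg G y := fun h => (mem_sdiff.mp hy).2 ((hA y).mpr h)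
    rw [hc1, hc1, if_pos hx', if_neg hy']
    exact one_ne_zero
  · intro σ h1 h2 x hx
    exact hrig σ (fun z hz => (hA _).mp (h1 z ((hA z).mpr hz)).1)
      (fun z w hz hw => h2 z ((hA z).mpr hz) w ((hA w).mpr hw)) x ((hA x).mp hx)
  · intro x hx y hy
    show f (key x) = f (key y) ↔ _
    rw [hf]
    show (c1 x, A.filter (fun a => G.Adj x a)) = (c1 y, A.filter (fun a => G.Adj y a)) ↔ _
    rw [Prod.mk.injEq]
    refine and_congr Iff.rfl ?_
    rw [Finset.ext_iff]
    constructor
    · intro h a ha
      have h5 := h a
      rw [mem_filter (s := A), mem_filter (s := A)] at h5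
      exact ⟨fun h6 => (h5.mp ⟨ha, h6⟩).2, fun h6 => (h5.mpr ⟨ha, h6⟩).2⟩
    · intro h a
      rw [mem_filter (s := A), mem_filter (s := A)]
      exact and_congr_right (fun ha => h a ha)

/-- **Theorem.** Graphs with a tame colouring and one of the properties (1), (2), and the special
case of a gap in the degrees above which the graph has no nontrivial automorphism. -/
theorem result :
    (∀ (V : Type) [Fintype V] (G : SimpleGraph V), 3 ≤ Fintype.card V →
      ∀ (U : Finset V) (c : V → ℕ), Tame G U c →
      ((∃ v ∈ U, ∀ i : ℕ, ∃ J : Set ℕ, c v ∈ J ∧ ∀ x ∈ U, ∀ y ∈ U, y ≠ v → c x = i → c y = i →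
          G.Adj v x → ¬ G.Adj v y → nbrs G U c J x ≠ nbrs G U c J y + 1) ∨
        (∃ W W' : Finset V, W.Nonempty ∧ W'.Nonempty ∧ Disjoint W W' ∧ (∀ x, x ∈ U ↔ x ∈ W ∨ x ∈ W') ∧
          ∀ x ∈ W, ∀ y ∈ W', ∀ x' ∈ W, ∀ y' ∈ W',
            ((c x = c x' ∧ c y = c y') ∨ (c x = c y' ∧ c y = c x')) →
              (G.Adj x y ↔ G.Adj x' y'))) →
      Reconstructible G ∧ Reconstructible Gᶜ) ∧
    (∀ (V : Type) [Fintype V] (G : SimpleGraph V) (e : ℕ), (∀ x, deg G x ≠ e) →
      (∀ σ : Equiv.Perm V, (∀ x, e < deg G x → e < deg G (σ x)) →
        (∀ x y, e < deg G x → e < deg G y → (G.Adj (σ x) (σ y) ↔ G.Adj x y)) →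
        ∀ x, e < deg G x → σ x = x) →
      3 ≤ (low G e).card →
      ((∃ W W' : Finset V, W.Nonempty ∧ W'.Nonempty ∧ Disjoint W W' ∧
          (∀ x, x ∈ low G e ↔ x ∈ W ∨ x ∈ W') ∧
          ((∀ x ∈ W, ∀ y ∈ W', ¬ G.Adj x y) ∨ (∀ x ∈ W, ∀ y ∈ W', G.Adj x y))) ∨
        (∀ x ∈ low G e, ∀ y ∈ low G e, degIn G (low G e) x ≠ degIn G (low G e) y + 1)) →
      Reconstructible G ∧ Reconstructible Gᶜ) := by
  classical
  have gen : ∀ (V : Type) [Fintype V] (G : SimpleGraph V), 3 ≤ Fintype.card V →
      ∀ (U : Finset V) (c : V → ℕ), Tame G U c →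
      ((∃ v ∈ U, ∀ i : ℕ, ∃ J : Set ℕ, c v ∈ J ∧ ∀ x ∈ U, ∀ y ∈ U, y ≠ v → c x = i → c y = i →
          G.Adj v x → ¬ G.Adj v y → nbrs G U c J x ≠ nbrs G U c J y + 1) ∨
        (∃ W W' : Finset V, W.Nonempty ∧ W'.Nonempty ∧ Disjoint W W' ∧ (∀ x, x ∈ U ↔ x ∈ W ∨ x ∈ W') ∧
          ∀ x ∈ W, ∀ y ∈ W', ∀ x' ∈ W, ∀ y' ∈ W',
            ((c x = c x' ∧ c y = c y') ∨ (c x = c y' ∧ c y = c x')) →
              (G.Adj x y ↔ G.Adj x' y'))) →
      Reconstructible G ∧ Reconstructible Gᶜ := by
    intro V _ G hV U c hT h
    refine main G hV U c hT ?_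
    rcases h with h | ⟨W, W', h1, h2, h3, h4, h5⟩
    · exact Or.inl h
    · right
      have hU : U \ W = W' := by
        ext x
        rw [mem_sdiff, h4]
        constructor
        · rintro ⟨h6 | h6, h7⟩
          · exact absurd h6 h7
          · exact h6
        · intro h6
          exact ⟨Or.inr h6, fun h7 => Finset.disjoint_left.mp h3 h7 h6⟩
      refine ⟨W, fun x hx => (h4 x).mpr (Or.inl hx), h1, ?_, ?_⟩
      · convert h2
      · intro x hx y hy x' hx' y' hy' h6
        have e1 : y ∈ W' := by rw [← hU]; convert hy
        have e2 : y' ∈ W' := by rw [← hU]; convert hy'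
        exact h5 x hx y e1 x' hx' y' e2 h6
  refine ⟨gen, ?_⟩
  intro V _ G e he hrig h3 h
  obtain ⟨c, hT⟩ := tame_low G e he hrig h3
  refine gen V G (h3.trans (card_le_univ _)) (low G e) c hT ?_
  rcases h with ⟨W, W', h1, h2, h4, h5, h6⟩ | h
  · right
    refine ⟨W, W', h1, h2, h4, h5, fun x hx y hy x' hx' y' hy' _ => ?_⟩
    rcases h6 with h6 | h6
    · exact iff_of_false (h6 x hx y hy) (h6 x' hx' y' hy')
    · exact iff_of_true (h6 x hx y hy) (h6 x' hx' y' hy')
  · left
    obtain ⟨v, hv⟩ : (low G e).Nonempty := card_pos.mp (by omega)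
    refine ⟨v, hv, fun i => ⟨Set.univ, Set.mem_univ _, fun x hx y hy _ _ _ _ _ => ?_⟩⟩
    have hnb : ∀ z, nbrs G (low G e) c Set.univ z = degIn G (low G e) z := by
      intro z
      unfold nbrs degIn
      congr 1
      ext w
      simp
    rw [hnb, hnb]
    exact h x hx y hy

end Pool.Agent.Results.MP_552896_co.GapsAndRigidSets
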