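import Pool.Agent.R553.Mod.Large

set_option autoImplicit false

/-!
# A large module which induces a reconstructible graph makes a graph reconstructible

`T(G)` is the set of nonempty cliques of `G` ordered by inclusion. A module of a graph `G` is a set
`M` of vertices such that every vertex outside `M` is adjacent to all or to none of the vertices
of `M`. Let `G` have `n` vertices, and let `M` be a module of `G` with at least `(n + 3) / 2`
vertices such that `T(G[M])` is reconstructible from its deck. Then `T(G)` and `T(Gᶜ)` are
reconstructible. There is no condition on the vertices outside `M` or on their adjacencies.

So a reconstructible graph with `m` vertices remains reconstructible if up to `m - 3` vertices are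
added in any way such that each new vertex is adjacent to all or to none of the old ones; this can
be repeated. The graph `G[M]` may be any graph from a class which is known to be reconstructible.

Proof. Let `H` be hypomorphic to `G`. Consider the smallest set `U` which contains `M`, is a module
of `G` and of `H`, and is preserved by the isomorphisms of the cards `G - v` and `H - v`, `v ∈ U`.
If `U = M`, then `G[M]` and `H[M]` are hypomorphic, so isomorphic, and the isomorphism extends. If
`G[U]` or its complement is disconnected, then Kelly's theorem gives the isomorphism. Otherwise
`G[U]` has a partition into modules with a prime quotient and a part `N` which contains `M`. The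
partitions of the cards of `H[U]` at the vertices of `N` have a part with `|N| - 1` vertices, and
all other parts are smaller than `|N| - 2`. Comparing two cards one finds that the large parts of
the cards come from modules of `H[U]` with `|N|` vertices, then that there is only one such
module, and that it is `N`. This contradicts the choice of `U`.
-/

namespace Pool.Agent.Results.MP_552896_co.LargeModule

open Classical in
/-- The truncated clique lattices of `G` and `H` have the same deck of maximal filter deleted
subsets: some bijection `f` of the vertex sets is such that, for every vertex `v`, the nonempty
cliques of `G` avoiding `v` and the nonempty cliques of `H` avoiding `f v`, both ordered by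
inclusion, are isomorphic ordered sets. -/
def SameDeck {V W : Type} (G : SimpleGraph V) (H : SimpleGraph W) : Prop :=
  ∃ f : V ≃ W, ∀ v : V,
    Nonempty ({s : Finset V // s.Nonempty ∧ G.IsClique (s : Set V) ∧ v ∉ s} ≃o
      {t : Finset W // t.Nonempty ∧ H.IsClique (t : Set W) ∧ f v ∉ t})

/-- `T(G)` is reconstructible from its deck: every truncated clique lattice `T(H)` of a finite
graph `H` with the same deck is isomorphic to `T(G)`. -/
def Reconstructible {V : Type} (G : SimpleGraph V) : Prop :=
  ∀ (W : Type) [Fintype W] (H : SimpleGraph W), SameDeck G H →
    Nonempty ({s : Finset V // s.Nonempty ∧ G.IsClique (s : Set V)} ≃o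
      {t : Finset W // t.Nonempty ∧ H.IsClique (t : Set W)})

/-- Let `M` be a module of the finite graph `G` (every vertex outside `M` is adjacent to all or to
none of the vertices of `M`) with `2 |M| ≥ |V| + 3` such that `T(G[M])` is reconstructible. Then
`T(G)` and `T(Gᶜ)` are reconstructible. -/
theorem result {V : Type} [Fintype V] (G : SimpleGraph V) (M : Finset V)
    (hmod : ∀ z : V, z ∉ M → (∀ x ∈ M, G.Adj z x) ∨ (∀ x ∈ M, ¬ G.Adj z x))
    (hcard : Fintype.card V + 3 ≤ 2 * M.card)
    (hrec : Reconstructible (G.induce (M : Set V))) :
    Reconstructible G ∧ Reconstructible Gᶜ := by
  classical
  refine Pool.Agent.R553.Mod.large_main G M ?_ hcard hrec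
  intro z hz x hx y hy
  rcases hmod z hz with h | h
  · exact iff_of_true (h x hx) (h y hy)
  · exact iff_of_false (h x hx) (h y hy)

end Pool.Agent.Results.MP_552896_co.LargeModule
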