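import Pool.Agent.R553.Mod.Main

set_option autoImplicit false

/-!
# Graphs which are partitioned into nontrivial modules are reconstructible

`T(G)` is the set of nonempty cliques of `G` ordered by inclusion. A module of a graph `G` is a set
`M` of vertices such that every vertex outside `M` is adjacent to all or to none of the vertices
of `M`. Suppose that the vertices of `G` are partitioned into at least two modules, each with at
least two vertices; equivalently, `G` is obtained from an arbitrary graph `Q` with at least two
vertices by the substitution of arbitrary graphs with at least two vertices for all vertices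
of `Q`. Then `T(G)` and `T(Gᶜ)` are reconstructible from their decks.

In particular all lexicographic products `Q[H]` with nontrivial factors (every `Q`, and a different
`H` for every vertex of `Q`), and all graphs with at least four vertices in which every vertex has
a twin, are reconstructible.

Proof. Take a coarsest partition into nontrivial modules. If it has two parts, `G` or its complement
is disconnected. Otherwise the quotient is prime, and it remains the quotient of every card, because
every part has a second vertex. In a graph with a partition into modules with a prime quotient every
proper module is contained in a part; so the partition of a card is unique, and for a hypomorphic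
graph `H` the partitions of the cards `H - v` agree on the common parts (here one part may be
lost by the deletion of two vertices, which is excluded by counting parts) and give a partition
of `H`. The card of a vertex of a smallest part shows where a vertex must be added; the
isomorphism type of this part is found by counting the parts of the smallest size if there
are several, and by comparing the cards of the other parts if there is only one.
-/

namespace Pool.Agent.Results.MP_552896_co.NontrivialModules

open Classical in
/-- The truncated clique lattices of `G` and `H` have the same deck of maximal filter deleted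
subsets: some bijection `f` of the vertex sets is such that, for every vertex `v`, the nonempty
cliques of `G` avoiding `v` and the nonempty cliques of `H` avoiding `f v`, both ordered by
inclusion, are isomorphic ordered sets. -/
def SameDeck {V W : Type} (G : SimpleGraph V) (H : SimpleGraph W) : Prop :=
  ∃ f : V ≃ W, ∀ v : V,
    Nonempty ({s : Finset V // s.Nonempty ∧ G.IsClique (s : Set V) ∧ v ∉ s} ≃o
      {t : Finset W // t.Nonempty ∧ H.IsClique (t : Set W) ∧ f v ∉ t})

/-- `T(G)` is reconstructible from its deck: every truncated clique lattice `T(H)` of a finite
graph `H` with the same deck is isomorphic to `T(G)`. -/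
def Reconstructible {V : Type} (G : SimpleGraph V) : Prop :=
  ∀ (W : Type) [Fintype W] (H : SimpleGraph W), SameDeck G H →
    Nonempty ({s : Finset V // s.Nonempty ∧ G.IsClique (s : Set V)} ≃o
      {t : Finset W // t.Nonempty ∧ H.IsClique (t : Set W)})

/-- `M` is a module of `G`: every vertex outside `M` is adjacent to all or to none of the vertices
of `M`. -/
def IsModule {V : Type} (G : SimpleGraph V) (M : Set V) : Prop :=
  ∀ z, z ∉ M → (∀ x ∈ M, G.Adj z x) ∨ (∀ x ∈ M, ¬ G.Adj z x)

/-- Let `P` be a partition of the vertices of a finite graph `G` into at least two modules, each
with at least two vertices. Then `T(G)` and `T(Gᶜ)` are reconstructible. -/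
theorem result {V : Type} [Fintype V] (G : SimpleGraph V) (P : Set (Set V))
    (hcover : ∀ x : V, ∃! M, M ∈ P ∧ x ∈ M)
    (hmod : ∀ M ∈ P, IsModule G M)
    (htwo : ∀ M ∈ P, 2 ≤ M.ncard)
    (hparts : ∃ M ∈ P, ∃ N ∈ P, M ≠ N) :
    Reconstructible G ∧ Reconstructible Gᶜ := by
  classical
  choose f hf hfu using fun x => (hcover x)
  have hpart : ∀ x y, f x = f y ↔ y ∈ f x := by
    intro x y
    constructor
    · intro h
      rw [h]
      exact (hf y).2
    · intro h
      exact hfu y (f x) ⟨(hf x).1, h⟩
  refine Pool.Agent.R553.Mod.main G f ?_ ?_ ?_
  · intro x y z hxy hzx
    have hz : z ∉ f x := fun h => hzx ((hpart x z).mpr h).symm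
    rcases hmod _ (hf x).1 z hz with h | h
    · exact iff_of_true (h x (hf x).2) (h y ((hpart x y).mp hxy))
    · exact iff_of_false (h x (hf x).2) (h y ((hpart x y).mp hxy))
  · intro x
    have h2 := htwo _ (hf x).1
    have h3 : 1 < (f x).ncard := by omega
    obtain ⟨y, hy, hyx⟩ := Set.exists_ne_of_one_lt_ncard h3 x
    exact ⟨y, hyx, ((hpart x y).mpr hy).symm⟩
  · obtain ⟨M, hM, N, hN, hMN⟩ := hparts
    have hne : ∀ M ∈ P, ∃ x, f x = M := by
      intro M hM
      have h2 := htwo M hM
      have : M.Nonempty := by
        by_contra h
        rw [Set.not_nonempty_iff_eq_empty] at h
        rw [h, Set.ncard_empty] at h2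
        omega
      obtain ⟨x, hx⟩ := this
      exact ⟨x, (hfu x M ⟨hM, hx⟩).symm⟩
    obtain ⟨a, ha⟩ := hne M hM
    obtain ⟨b, hb⟩ := hne N hN
    exact ⟨a, b, by rw [ha, hb]; exact hMN⟩

end Pool.Agent.Results.MP_552896_co.NontrivialModules
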