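import Pool.Agent.R553.Sub.Main

set_option autoImplicit false

/-!
# For almost all graphs `Q` every graph obtained by substitutions in `Q` is reconstructible

`T(G)` is the set of nonempty cliques of `G` ordered by inclusion. Let `Q` be a graph and let `M i`
be an arbitrary finite graph with at least one vertex, for every vertex `i` of `Q`. In the
substitution `Q[M]` every vertex `i` is replaced by the graph `M i`, and the vertices of `M i` and
`M j` are joined if `i` and `j` are adjacent in `Q`.

(A) Suppose that `Q` has at least five vertices, that `Q` remains prime (has no nontrivial module)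
after the deletion of any at most two vertices, and that every permutation of the vertices of `Q`
which preserves the adjacencies of all pairs avoiding two given vertices fixes all other vertices.
Then `T(Q[M])` and `T` of its complement are reconstructible from their decks for every family `M`.

(B) Let `ε > 0`. If the pairs of vertices of `Q` are edges independently with probabilities between
`ε` and `1 - ε`, which may be different and may depend on `n`, and the number `n` of the vertices
of `Q` is large, then with probability at least `1 - 2 / n` all the substitutions `Q[M]`, for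
all `M`, of all orders, and their complements are reconstructible.

So the order of the graph `Q[M]` may be arbitrarily large in comparison with `Q`, and the graphs
`M i` (which may be unknown to be reconstructible) are not restricted in any way.

Proof of (A). Let `H` be hypomorphic to `Q[M]`. Every card `H - v` has a partition into modules
labelled by vertices of `Q`. Two such partitions induce partitions of `H - u - v` with prime
quotients, so the same partition, and the labels agree since `Q` is rigid. This gives a labelling
of `H`; then the isomorphisms of the cards preserve the labels, each part is found in a card of a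
vertex of another part, and the isomorphisms can be put together.
-/

namespace Pool.Agent.Results.MP_552896_co.SubstitutionsInAlmostAllGraphs

open Classical in
/-- The truncated clique lattices of `G` and `H` have the same deck of maximal filter deleted
subsets: some bijection `f` of the vertex sets is such that, for every vertex `v`, the nonempty
cliques of `G` avoiding `v` and the nonempty cliques of `H` avoiding `f v`, both ordered by
inclusion, are isomorphic ordered sets. -/
def SameDeck {V W : Type} (G : SimpleGraph V) (H : SimpleGraph W) : Prop :=
  ∃ f : V ≃ W, ∀ v : V,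
    Nonempty ({s : Finset V // s.Nonempty ∧ G.IsClique (s : Set V) ∧ v ∉ s} ≃o
      {t : Finset W // t.Nonempty ∧ H.IsClique (t : Set W) ∧ f v ∉ t})

/-- `T(G)` is reconstructible from its deck: every truncated clique lattice `T(H)` of a finite
graph `H` with the same deck is isomorphic to `T(G)`. -/
def Reconstructible {V : Type} (G : SimpleGraph V) : Prop :=
  ∀ (W : Type) [Fintype W] (H : SimpleGraph W), SameDeck G H →
    Nonempty ({s : Finset V // s.Nonempty ∧ G.IsClique (s : Set V)} ≃o
      {t : Finset W // t.Nonempty ∧ H.IsClique (t : Set W)})

/-- The substitution `Q[M]`: the vertices are the pairs `⟨i, a⟩`, `a` a vertex of `M i`; two of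
them are adjacent if their first components are adjacent in `Q`, or if the first components
are equal and the second ones are adjacent in `M i`. -/
def substitution {K : Type} {V : K → Type} (Q : SimpleGraph K) (M : ∀ i, SimpleGraph (V i)) :
    SimpleGraph (Σ i, V i) where
  Adj x y := Q.Adj x.1 y.1 ∨ ∃ (i : K) (a b : V i), x = ⟨i, a⟩ ∧ y = ⟨i, b⟩ ∧ (M i).Adj a b
  symm := (Pool.Agent.R553.Sub.sb Q M).symm
  loopless := (Pool.Agent.R553.Sub.sb Q M).loopless

/-- All substitutions `Q[M]` of finite graphs `M i` with at least one vertex, and their
complements, are reconstructible. -/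
def AllSubstitutions {K : Type} (Q : SimpleGraph K) : Prop :=
  ∀ (V : K → Type) [∀ i, Fintype (V i)] [∀ i, Nonempty (V i)] (M : ∀ i, SimpleGraph (V i)),
    Reconstructible (substitution Q M) ∧ Reconstructible (substitution Q M)ᶜ

/-- `Q - D` is prime: every module `S` of `Q - D` has at most one vertex or contains all vertices
outside `D`. -/
def PrimeWithout {K : Type} (Q : SimpleGraph K) (D : Finset K) : Prop :=
  ∀ S : Finset K, Disjoint S D →
    (∀ z, z ∉ S → z ∉ D → ∀ x ∈ S, ∀ y ∈ S, (Q.Adj z x ↔ Q.Adj z y)) →
    S.card ≤ 1 ∨ ∀ z, z ∈ S ∨ z ∈ D

/-- A permutation which preserves the adjacencies of all pairs avoiding two vertices `b`, `c` fixes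
all vertices different from `b`, `c`. -/
def Rigid {K : Type} (Q : SimpleGraph K) : Prop :=
  ∀ (φ : Equiv.Perm K) (b c : K),
    (∀ x y, x ≠ b → x ≠ c → y ≠ b → y ≠ c → (Q.Adj (φ x) (φ y) ↔ Q.Adj x y)) →
    ∀ x, x ≠ b → x ≠ c → φ x = x

open Classical in
/-- The probability of the graph `H` in the model in which the pairs `e` of different vertices are
edges independently with the probabilities `p e`. -/
noncomputable def prob {V : Type} [Fintype V] (p : Sym2 V → ℝ) (H : SimpleGraph V) : ℝ :=
  ∏ e ∈ Finset.univ.filter (fun e : Sym2 V => ¬ e.IsDiag),
    if e ∈ H.edgeSet then p e else 1 - p e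

open Classical in
/-- (A) the criterion; (B) the random graph: the probability that some substitution in `Q` or its
complement is not reconstructible is at most `2 / n`. -/
theorem result :
    (∀ (K : Type) [Fintype K] (Q : SimpleGraph K), 5 ≤ Fintype.card K →
      (∀ D : Finset K, D.card ≤ 2 → PrimeWithout Q D) → Rigid Q → AllSubstitutions Q) ∧
    (∀ ε : ℝ, 0 < ε → ∃ n₀ : ℕ, ∀ (K : Type) [Fintype K] (p : Sym2 K → ℝ),
      n₀ ≤ Fintype.card K → (∀ e, ε ≤ p e ∧ p e ≤ 1 - ε) →
      ∑ Q ∈ Finset.univ.filter (fun Q : SimpleGraph K => ¬ AllSubstitutions Q), prob p Q ≤
        2 / (Fintype.card K : ℝ)) := by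
  refine ⟨fun K _ Q hk hp hr => ?_, fun ε hε => ?_⟩
  · exact Pool.Agent.R553.Sub.good_of Q hk hp (fun a φ hφ h1 h2 => hr φ.1 φ.2.1 φ.2.2 hφ a h1 h2)
  · exact Pool.Agent.R553.Sub.main ε hε

end Pool.Agent.Results.MP_552896_co.SubstitutionsInAlmostAllGraphs
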