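import Pool.Agent.R586.TW.Cor

set_option autoImplicit false

/-!
# Graphs with large classes of twins, and graphs with few distinct neighbourhoods

`T(G)` is the set of nonempty cliques of `G` ordered by inclusion. The *classes* of `G` are the
classes of vertices with the same set of neighbours; there are `K` of them, `c(s)` of them have
exactly `s` vertices, and `Q` is the graph induced by a set which contains one vertex of each
class. Let `G` have `n ≥ 8` vertices. `T(G)` and `T` of the complement of `G` are reconstructible
in each of the following cases.

(A) `c(s + 1) > c(s)` for some `s ≥ 1`.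

(B) `(2 |Aut Q|)^(q - p) < (q - p + 1)^e` for some `p ≥ 1` and `q`, where `e` is the sum of
`|C| - p` over the classes `C` with `p ≤ |C| ≤ q`. For example `c(s) > 1 + log_2 |Aut Q|` for some
`s ≥ 2`.

(C) `n > K (K + 1) / 2`. So every large graph with fewer than about `(2 n)^(1/2)` distinct
neighbourhoods is reconstructible.

(D) `n > r (r + 3) / 2`, where `r` is the neighbourhood diversity of `G` (two vertices `x`, `y` are
in the same part if every other vertex is adjacent to both or to none of them; the vertices `x`,
`y` may be adjacent).

(E) Some `M` vertices with `M^M > 4 |Aut Q|^2` have the same set of neighbours.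

(G) `n ≥ K + 2 (log_2 (2 |Aut Q|))^2`. For example, if `Q` has no automorphism except the
identity, then `n ≥ K + 2` suffices.

The theorem for the complement of `G` is the same theorem for the classes of vertices with the same
closed neighbourhood.

Proof. Let `t(j)` be the number of the pairs of nonadjacent vertices which are distinguished by
exactly `j` vertices. The deck determines `(n - 2 - j) t(j) + (j + 1) t(j + 1)`, so that for a
hypomorphic graph `H` the difference of the two numbers `t(j)` is `(-1)^j C(n - 2, j)` times the
difference of the two numbers `t(0)`, which is therefore zero. So corresponding vertices have the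
same number of twins, and if it is positive then both graphs are obtained from the card by the
addition of twins to two classes. The weight functions (the sizes of the classes) of the two graphs
are therefore functions on the same set with the same decks with respect to a subgroup of `Aut Q`,
and a signed measure on the union of the two orbits is orthogonal to all products of few linear
factors; (A) and (B) follow since a product of few linear factors is nonzero at only one point.
-/

namespace Pool.Agent.Results.MP_552896_co.TwinClasses

/-- The truncated clique lattices of `G` and `H` have the same deck of maximal filter deleted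
subsets: some bijection `f` of the vertex sets is such that, for every vertex `v`, the nonempty
cliques of `G` avoiding `v` and the nonempty cliques of `H` avoiding `f v`, both ordered by
inclusion, are isomorphic ordered sets. -/
def SameDeck {V W : Type} (G : SimpleGraph V) (H : SimpleGraph W) : Prop :=
  ∃ f : V ≃ W, ∀ v : V,
    Nonempty ({s : Finset V // s.Nonempty ∧ G.IsClique (s : Set V) ∧ v ∉ s} ≃o
      {t : Finset W // t.Nonempty ∧ H.IsClique (t : Set W) ∧ f v ∉ t})

/-- `T(G)` is reconstructible from its deck: every truncated clique lattice `T(H)` of a finite
graph `H` with the same deck is isomorphic to `T(G)`. -/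
def Reconstructible {V : Type} (G : SimpleGraph V) : Prop :=
  ∀ (W : Type) [Fintype W] (H : SimpleGraph W), SameDeck G H →
    Nonempty ({s : Finset V // s.Nonempty ∧ G.IsClique (s : Set V)} ≃o
      {t : Finset W // t.Nonempty ∧ H.IsClique (t : Set W)})

open Classical in
/-- The set of the neighbours of `v`. -/
noncomputable def nbhd {V : Type} [Fintype V] (G : SimpleGraph V) (v : V) : Finset V :=
  Finset.univ.filter (fun y => G.Adj v y)

open Classical in
/-- The set of the neighbourhoods of the vertices; its members correspond to the classes of
vertices with the same neighbours. -/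
noncomputable def nbhds {V : Type} [Fintype V] (G : SimpleGraph V) : Finset (Finset V) :=
  Finset.univ.image (nbhd G)

open Classical in
/-- The number of the vertices whose set of neighbours is `N`. -/
noncomputable def size {V : Type} [Fintype V] (G : SimpleGraph V) (N : Finset V) : ℕ :=
  (Finset.univ.filter (fun v => nbhd G v = N)).card

open Classical in
/-- The number of the classes with exactly `s` vertices. -/
noncomputable def classes {V : Type} [Fintype V] (G : SimpleGraph V) (s : ℕ) : ℕ :=
  ((nbhds G).filter (fun N => size G N = s)).card

/-- `R` contains exactly one vertex of each class. -/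
def Transversal {V : Type} [Fintype V] (G : SimpleGraph V) (R : Set V) : Prop :=
  ∀ v : V, ∃! x : V, x ∈ R ∧ nbhd G x = nbhd G v

/-- The number of the automorphisms of the graph induced by `R`. -/
noncomputable def aut {V : Type} (G : SimpleGraph V) (R : Set V) : ℕ :=
  Nat.card (G.induce R ≃g G.induce R)

/-- The class of `v` with respect to the neighbourhood diversity: the set of the vertices `y` such
that every vertex different from `v` and `y` is adjacent to both or to none of them. -/
def part {V : Type} (G : SimpleGraph V) (v : V) : Set V :=
  {y | ∀ z, z ≠ v → z ≠ y → (G.Adj v z ↔ G.Adj y z)}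

/-- The neighbourhood diversity. -/
noncomputable def diversity {V : Type} (G : SimpleGraph V) : ℕ := (Set.range (part G)).ncard

open Classical in
/-- Let `G` have at least `8` vertices, and let `R` contain exactly one vertex of each class of
vertices with the same neighbours. `T(G)` and `T(Gᶜ)` are reconstructible if
(A) for some `s ≥ 1` there are more classes with `s + 1` vertices than with `s` vertices, or
(B) `(2 |Aut|)^(q - p) < (q - p + 1)^e`, `p ≥ 1`, `e` the sum of `|C| - p` over the classes `C` with
`p ≤ |C| ≤ q`, or
(C) there are `K` classes and `K (K + 1) < 2 |V|`, or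
(D) `r (r + 3) < 2 |V|`, `r` the neighbourhood diversity, or
(E) `4 |Aut|^2 < M^M`, `M` the number of the vertices of some class, or
(G) `K + 2 (log_2 (2 |Aut|))^2 ≤ |V|`. -/
theorem result {V : Type} [Fintype V] (G : SimpleGraph V) (h8 : 8 ≤ Fintype.card V) :
    (∀ s : ℕ, 1 ≤ s → classes G s < classes G (s + 1) →
      Reconstructible G ∧ Reconstructible Gᶜ) ∧
    (∀ (R : Set V), Transversal G R → ∀ p q : ℕ, 1 ≤ p →
      (2 * aut G R) ^ (q - p) < (q - p + 1) ^
        (∑ N ∈ (nbhds G).filter (fun N => p ≤ size G N ∧ size G N ≤ q), (size G N - p)) →
      Reconstructible G ∧ Reconstructible Gᶜ) ∧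
    ((nbhds G).card * ((nbhds G).card + 1) < 2 * Fintype.card V →
      Reconstructible G ∧ Reconstructible Gᶜ) ∧
    (diversity G * (diversity G + 3) < 2 * Fintype.card V →
      Reconstructible G ∧ Reconstructible Gᶜ) ∧
    (∀ (R : Set V), Transversal G R → ∀ v : V,
      4 * aut G R ^ 2 < size G (nbhd G v) ^ size G (nbhd G v) →
      Reconstructible G ∧ Reconstructible Gᶜ) ∧
    (∀ (R : Set V), Transversal G R →
      ((nbhds G).card : ℝ) + 2 * Real.logb 2 (2 * (aut G R : ℝ)) ^ 2 ≤ (Fintype.card V : ℝ) →
      Reconstructible G ∧ Reconstructible Gᶜ) := by
  refine ⟨fun s hs h => Pool.Agent.R586.TW.form_A G h8 s hs h,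
    fun R hR p q hp h => Pool.Agent.R586.TW.form_B G h8 R hR p q hp h,
    fun h => Pool.Agent.R586.TW.form_C G h8 h, fun h => ?_,
    fun R hR v h => Pool.Agent.R586.TW.form_E G h8 R hR v h,
    fun R hR h => Pool.Agent.R586.TW.form_G G h8 R hR h⟩
  apply Pool.Agent.R586.TW.form_D G h8
  have h1 : diversity G = (Finset.univ.image (fun v => Pool.Agent.R586.TW.typ G v)).card := by
    have h2 : ∀ v, part G v = ((Pool.Agent.R586.TW.typ G v : Finset V) : Set V) := by
      intro v
      ext y
      rw [Finset.mem_coe, Pool.Agent.R586.TW.mem_typ]
      exact Iff.rfl
    have h3 : Set.range (part G) =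
        (fun X : Finset V => (X : Set V)) ''
          ((Finset.univ.image (fun v => Pool.Agent.R586.TW.typ G v) : Finset (Finset V)) :
            Set (Finset V)) := by
      ext X
      constructor
      · rintro ⟨v, rfl⟩
        exact ⟨_, Finset.mem_coe.mpr (Finset.mem_image_of_mem _ (Finset.mem_univ v)), (h2 v).symm⟩
      · rintro ⟨Y, hY, rfl⟩
        obtain ⟨v, _, rfl⟩ := Finset.mem_image.mp (Finset.mem_coe.mp hY)
        exact ⟨v, h2 v⟩
    rw [diversity, h3, Set.ncard_image_of_injective _ Finset.coe_injective,
      Set.ncard_coe_finset]
  rw [← h1]
  exact h

end Pool.Agent.Results.MP_552896_co.TwinClasses
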